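import Pool.Agent.W559.Et.Stm4
import Pool.Agent.W559.Et.Le
import Pool.Agent.H920R2.Sig10

/-!
Smoothness of the universal algebra of the second level, for actions which are linear in etale
coordinates near their fixed points.
-/

set_option autoImplicit false
set_option linter.unusedSectionVars false

open MvPolynomial

universe u v w

namespace Pool.Agent.W335.Et

open Pool.Agent.W559.Mg Pool.Agent.W559.Et

variable {k K : Type u} [Field k] [Field K] [Algebra k K]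

/-- The twisted Artin-Schreier equation gives integrality. -/
lemma integral_AS {A S : Type u} [CommRing A] [CommRing S] [Nontrivial A] [Algebra A S] {p : ℕ}
    (hp : 2 ≤ p) (θ : S) (a b : A) (h : θ ^ p = algebraMap A S a * θ + algebraMap A S b) :
    IsIntegral A θ := by
  obtain ⟨n, rfl⟩ : ∃ n, p = n + 1 := ⟨p - 1, by omega⟩
  refine ⟨Polynomial.X ^ (n + 1) - (Polynomial.C a * Polynomial.X + Polynomial.C b), ?_, ?_⟩
  · apply Polynomial.monic_X_pow_sub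
    calc (Polynomial.C a * Polynomial.X + Polynomial.C b).degree ≤ ((1 : ℕ) : WithBot ℕ) :=
          Polynomial.degree_linear_le
      _ < ((n + 1 : ℕ) : WithBot ℕ) := by exact_mod_cast (show 1 < n + 1 by omega)
  · rw [Polynomial.eval₂_sub, Polynomial.eval₂_add, Polynomial.eval₂_mul, Polynomial.eval₂_C,
      Polynomial.eval₂_C, Polynomial.eval₂_X, Polynomial.eval₂_pow, Polynomial.eval₂_X, h, sub_self]

/-- A prime over a prime of the constants, on which the automorphism acts trivially. -/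
theorem over_prime {k D : Type u} [Field k] [CommRing D] [IsDomain D] [Algebra k D] {p : ℕ}
    (hp : 2 ≤ p) (W Rr : Subalgebra k D) (hWR : W ≤ Rr) (g : D →ₐ[k] D)
    (hgW : ∀ w ∈ W, g w - w ∈ W) (hgR : ∀ f ∈ Rr, g f - f ∈ Rr) (θ : D) (hθ : θ ∈ Rr)
    (hgθ : g θ - θ ∈ W) (a b : D) (ha : a ∈ W) (hb : b ∈ W) (hab : θ ^ p = a * θ + b)
    (hdec : ∀ x ∈ Rr, ∃ c : Fin p → D, (∀ i, c i ∈ W) ∧ x = ∑ i, c i * θ ^ (i : ℕ))
    (P0 : Ideal W) (hP0 : P0.IsPrime)
    (h1 : ∀ w (hw : w ∈ W), (⟨g w - w, hgW w hw⟩ : W) ∈ P0)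
    (h2 : (⟨g θ - θ, hgθ⟩ : W) ∈ P0) :
    ∃ PP : Ideal Rr, PP.IsPrime ∧
      (∀ w (hw : w ∈ W), (⟨w, hWR hw⟩ : Rr) ∈ PP ↔ (⟨w, hw⟩ : W) ∈ P0) ∧
      ∀ f (hf : f ∈ Rr), (⟨g f - f, hgR f hf⟩ : Rr) ∈ PP := by
  classical
  let _ : Algebra W Rr := (Subalgebra.inclusion hWR).toRingHom.toAlgebra
  have halg : ∀ w : W, ((algebraMap W Rr w : Rr) : D) = w := fun _ => rfl
  let θ' : Rr := ⟨θ, hθ⟩
  have hθint : IsIntegral W θ' := by
    refine integral_AS (A := W) hp θ' ⟨a, ha⟩ ⟨b, hb⟩ ?_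
    apply Subtype.ext
    change θ ^ p = a * θ + b
    exact hab
  have hsum : ∀ f : Rr, ∃ c : Fin p → W, f = ∑ i, algebraMap W Rr (c i) * θ' ^ (i : ℕ) := by
    intro f
    obtain ⟨c, hc, h⟩ := hdec f f.2
    refine ⟨fun i => ⟨c i, hc i⟩, ?_⟩
    apply Subtype.ext
    rw [h, AddSubmonoidClass.coe_finsetSum]
    rfl
  have hint : Algebra.IsIntegral W Rr := by
    refine ⟨fun f => ?_⟩
    obtain ⟨c, rfl⟩ := hsum f
    exact IsIntegral.sum _ fun i _ => isIntegral_algebraMap.mul (hθint.pow _)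
  have hinjA : Function.Injective (algebraMap W Rr) := Subalgebra.inclusion_injective hWR
  have hkerle : RingHom.ker (algebraMap W Rr) ≤ P0 := by
    rw [(RingHom.injective_iff_ker_eq_bot _).1 hinjA]
    exact bot_le
  obtain ⟨PP, hPP, hPPc⟩ := Ideal.exists_ideal_over_prime_of_isIntegral_of_isDomain
    (R := W) (S := Rr) P0 hkerle
  have hmem : ∀ w (hw : w ∈ W), (⟨w, hWR hw⟩ : Rr) ∈ PP ↔ (⟨w, hw⟩ : W) ∈ P0 := by
    intro w hw
    rw [← hPPc, Ideal.mem_comap]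
    rfl
  refine ⟨PP, hPP, hmem, fun f hf => ?_⟩
  have hg2 : ∀ f (hf : f ∈ Rr), g f ∈ Rr := by
    intro f hf
    have := Rr.add_mem (hgR f hf) hf
    rwa [sub_add_cancel] at this
  let gR : Rr →ₐ[k] Rr := (g.comp Rr.val).codRestrict _ (fun x => hg2 x x.2)
  have hgRv : ∀ f : Rr, ((gR f : Rr) : D) = g f := fun _ => rfl
  have hkey : ∀ f : Rr, gR f - f ∈ PP := by
    intro f
    rw [← Ideal.Quotient.mk_eq_mk_iff_sub_mem]
    obtain ⟨c, hc⟩ := hsum f
    rw [hc, map_sum, map_sum, map_sum]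
    refine Finset.sum_congr rfl fun i _ => ?_
    rw [map_mul, map_mul, map_mul, map_pow, map_pow, map_pow]
    congr 1
    · rw [Ideal.Quotient.mk_eq_mk_iff_sub_mem]
      exact (hmem _ (hgW _ (c i).2)).2 (h1 _ (c i).2)
    · congr 1
      rw [Ideal.Quotient.mk_eq_mk_iff_sub_mem]
      exact (hmem _ hgθ).2 h2
  exact hkey ⟨f, hf⟩

/-- The order of the linear map. -/
lemma pow_eq_one_of_coords {B : Subalgebra k K} {n : ℕ} (x : Fin n → B)
    (hinj : Function.Injective (aeval (fun i => (x i : K)) : MvPolynomial (Fin n) k →ₐ[k] K))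
    (γ : K →ₐ[k] K) (N : ℕ) (hγ : ∀ a : K, γ^[N] a = a) (T : Module.End k (Fin n → k))
    (hl : ∀ v : Fin n → k, γ (∑ i, v i • (x i : K)) = ∑ i, T v i • (x i : K)) : T ^ N = 1 := by
  have hφl : ∀ v : Fin n → k, (aeval (fun i => (x i : K)) : MvPolynomial (Fin n) k →ₐ[k] K)
      (H920R2.lf v) = ∑ i, v i • (x i : K) := by
    intro v
    rw [H920R2.lf_apply, map_sum]
    refine Finset.sum_congr rfl fun i _ => ?_
    rw [map_mul, aeval_X, aeval_C, Algebra.smul_def]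
  have hiter : ∀ (m : ℕ) (v : Fin n → k),
      γ^[m] (∑ i, v i • (x i : K)) = ∑ i, (T ^ m) v i • (x i : K) := by
    intro m
    induction m with
    | zero => intro v; rfl
    | succ m ih =>
      intro v
      rw [Function.iterate_succ_apply', ih, hl, pow_succ', Module.End.mul_apply]
  refine LinearMap.ext fun v => ?_
  have h1 := hiter N v
  rw [hγ, ← hφl, ← hφl] at h1
  exact (H920R2.lf_injective (hinj h1)).symm

/-- Smoothness of the universal algebra of the second level. -/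
theorem crit2 (hcb : CbStm.{u}) (hdec : DecStm.{u}) (hext : ExtStm.{u}) (hlin : LinStm.{u})
    (hlaur : LaurStm.{u}) : Crit2Stm.{u} := by
  intro k K _ _ _ γ p hp hpk hγ B hB hfr hsm hLL
  classical
  set R := RF γ p B with hR
  have hRB : RB γ p R := RF_RB γ p B hB
  set g := ge (gm G3 γ) p (sS K) with hg
  set T : MvPolynomial (Fin p) (ML K G3) := C (mo (dg 0 1 0) 1) with hT
  set T' : MvPolynomial (Fin p) (ML K G3) := C (mo (dg 0 (-1) 0) 1) with hTd'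
  have hTT : T * T' = 1 := by rw [hT, hTd', ← map_mul, TT'_one, map_one]
  have hT' : T' ∈ SU γ p R := S2_T' g p T T' (WU γ p R) _
  refine smooth_of_lc _ fun Q hQ => ?_
  by_cases hTQ : (⟨T', hT'⟩ : SU γ p R) ∈ Q
  swap
  · exact ⟨T', hT', IsUnit.of_mul_eq_one T (by rw [mul_comm, hTT]), hTQ,
      smooth_SU_T hp hpk hlaur hγ hRB hsm hT'⟩
  have hWS : WU γ p R ≤ SU γ p R := fun w hw => S2_W g p T T' (WU γ p R) _ hw
  have hWR : WU γ p R ≤ Rp p (sS K) R := inf_le_left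
  -- the prime of the constants
  let P0 : Ideal (WU γ p R) := Q.comap (Subalgebra.inclusion hWS).toRingHom
  have hP0 : P0.IsPrime := Ideal.IsPrime.comap _
  have hdlW : ∀ w ∈ WU γ p R, ∀ h : dl g w ∈ WU γ p R, (⟨dl g w, h⟩ : WU γ p R) ∈ P0 := by
    intro w hw h
    change (⟨dl g w, hWS h⟩ : SU γ p R) ∈ Q
    have h1 : (⟨dl g w, hWS h⟩ : SU γ p R) =
        (⟨(dl g)^[1] w * T ^ (1 * p), S2_w g p T T' (WU γ p R) _ hw 1⟩ : SU γ p R) *
          (⟨T', hT'⟩ : SU γ p R) ^ p := by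
      apply Subtype.ext
      change dl g w = (dl g w * T ^ (1 * p)) * T' ^ p
      rw [one_mul, mul_assoc, ← mul_pow, hTT, one_pow, mul_one]
    rw [h1]
    exact Q.mul_mem_left _ (Q.pow_mem_of_mem hTQ p hp.pos)
  have hth1W : th p (sS K) 1 ∈ WU γ p R := WU_th hp hpk R one_pos
  have hth1 : (⟨th p (sS K) 1, hth1W⟩ : WU γ p R) ∈ P0 := by
    change (⟨th p (sS K) 1, hWS hth1W⟩ : SU γ p R) ∈ Q
    have h1 : (⟨th p (sS K) 1, hWS hth1W⟩ : SU γ p R) =
        (⟨(dl g)^[0 + 1] (th p (sS K) 0) * T ^ (0 * p + 1),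
          S2_t g p T T' (WU γ p R) _ hp.pos⟩ : SU γ p R) * (⟨T', hT'⟩ : SU γ p R) := by
      apply Subtype.ext
      change th p (sS K) 1 = ((dl g)^[0 + 1] (th p (sS K) 0) * T ^ (0 * p + 1)) * T'
      rw [hg, dl_iter_th _ _ _ (gs γ), zero_mul, zero_add, pow_one, mul_assoc, hTT, mul_one]
    rw [h1]
    exact Q.mul_mem_left _ hTQ
  -- the structure of the polynomials over the constants
  have hs0 : (C (sS K) : MvPolynomial (Fin p) (ML K G3)) ≠ 0 := by
    rw [Ne, map_eq_zero_iff C (C_injective _ _)]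
    exact mo_ne_zero one_ne_zero
  have hσs : (g ^ p) (C (sS K)) = C (sS K) := by
    rw [hg, sig_C]; unfold sS; rw [gm_mo, map_one]
  have hσθ : (g ^ p) (th p (sS K) 0) = th p (sS K) 0 + C (sS K) := by
    rw [hg, sig_th hp hpk, zero_add, th_p]
  have hdd := (hdec k (MvPolynomial (Fin p) (ML K G3)) p hp hpk (g ^ p)
    (Rp p (sS K) R) (C (sS K)) (th p (sS K) 0) hs0 (Rp_C hRB.s) hσs (Rp_th R 0) hσθ
    (sig_cong hp hpk hRB) (sig_iter hp hpk hγ R)).1
  have hsW : (C (sS K) : MvPolynomial (Fin p) (ML K G3)) ∈ WU γ p R :=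
    ⟨Rp_C hRB.s, by rw [SetLike.mem_coe, mem_fx]; exact hσs⟩
  have hpD : ((p : ℕ) : MvPolynomial (Fin p) (ML K G3)) = 0 := cast_p (k := k) hpk
  have hfp : Fact p.Prime := ⟨hp⟩
  have hchar : CharP (MvPolynomial (Fin p) (ML K G3)) p :=
    (CharP.charP_iff_prime_eq_zero hp).2 hpD
  have hbW : th p (sS K) 0 ^ p - C (sS K) ^ (p - 1) * th p (sS K) 0 ∈ WU γ p R := by
    refine ⟨Subalgebra.sub_mem _ (Subalgebra.pow_mem _ (Rp_th R 0) _)
      (Subalgebra.mul_mem _ (Subalgebra.pow_mem _ (Rp_C hRB.s) _) (Rp_th R 0)), ?_⟩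
    rw [SetLike.mem_coe, mem_fx]
    change (g ^ p) (th p (sS K) 0 ^ p - C (sS K) ^ (p - 1) * th p (sS K) 0) = _
    have h1 : (C (sS K) : MvPolynomial (Fin p) (ML K G3)) ^ (p - 1) * C (sS K) =
        C (sS K) ^ p := by
      rw [← pow_succ, Nat.sub_add_cancel hp.one_le]
    rw [map_sub, map_pow, map_mul, map_pow, hσs, hσθ, add_pow_char, mul_add, h1]
    ring
  have hgθ : g (th p (sS K) 0) - th p (sS K) 0 = th p (sS K) 1 := by
    rw [hg, ge_th _ _ _ (gs γ), zero_add, add_sub_cancel_left]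
  obtain ⟨PP, hPP, hPPm, hkey⟩ := over_prime hp.two_le (WU γ p R) (Rp p (sS K) R) hWR g
    (fun w hw => Subalgebra.sub_mem _ (WU_ge hRB _ hw) hw)
    (fun f hf => Subalgebra.sub_mem _ (Rp_ge hRB _ hf) hf) (th p (sS K) 0) (Rp_th R 0)
    (by rw [hgθ]; exact hth1W) (C (sS K) ^ (p - 1))
    (th p (sS K) 0 ^ p - C (sS K) ^ (p - 1) * th p (sS K) 0)
    (Subalgebra.pow_mem _ hsW _) hbW (by ring)
    (fun x hx => by
      obtain ⟨c, hc, h1⟩ := hdd x hx
      exact ⟨c, fun i => ⟨(hc i).1, by rw [SetLike.mem_coe, mem_fx]; exact (hc i).2⟩, h1⟩)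
    P0 hP0 (fun w hw => hdlW w hw (Subalgebra.sub_mem _ (WU_ge hRB _ hw) hw))
    (by
      have h1 : ∀ (x y : MvPolynomial (Fin p) (ML K G3)) (hx : x ∈ WU γ p R)
          (hy : y ∈ WU γ p R), x = y → (⟨y, hy⟩ : WU γ p R) ∈ P0 →
            (⟨x, hx⟩ : WU γ p R) ∈ P0 := by
        rintro x y hx hy rfl h
        exact h
      exact h1 _ _ _ hth1W hgθ hth1)
  -- the fixed point
  let ιB : B →ₐ[k] Rp p (sS K) R :=
    (((cc k p).comp (zr k K G3)).comp B.val).codRestrict _ (fun b => Rp_C (RF_b γ p b.2))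
  have hιB : ∀ b : B, ((ιB b : Rp p (sS K) R) : MvPolynomial (Fin p) (ML K G3)) =
      C (mo 0 (b : K)) := fun _ => rfl
  have hq : (PP.comap ιB.toRingHom).IsPrime := Ideal.IsPrime.comap _
  obtain ⟨f, hf, hfq, hγf, m, x, T₀, het, hlT⟩ := hLL (PP.comap ιB.toRingHom) hq (by
    intro c hc h
    rw [Ideal.mem_comap]
    have h1 := hkey (C (mo 0 c)) (Rp_C (RF_b γ p hc))
    have h2 : ιB.toRingHom ⟨γ c - c, h⟩ =
        ⟨g (C (mo 0 c)) - C (mo 0 c), Subalgebra.sub_mem _ (Rp_ge hRB _ (Rp_C (RF_b γ p hc)))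
          (Rp_C (RF_b γ p hc))⟩ := by
      apply Subtype.ext
      change C (mo 0 (γ c - c)) = g (C (mo 0 c)) - C (mo 0 c)
      rw [hg, ge_C, gm_mo, ← map_sub, mo_sub]
    rw [h2]
    exact h1)
  have hf0 : f ≠ 0 := by
    rintro rfl
    apply hfq
    have : (⟨0, hf⟩ : B) = 0 := rfl
    rw [this]
    exact Ideal.zero_mem _
  have hmf : mo 0 f ∈ R := RF_b γ p hf
  have hγx : gm G3 γ (mo 0 f) = mo 0 f := by rw [gm_mo, hγf]
  have hxx : mo (0 : G3) f * mo 0 f⁻¹ = 1 := by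
    rw [mo_mul, zero_add, mul_inv_cancel₀ hf0, mo_one]
  have hCf : C (mo 0 f) ∈ WU γ p R := by
    refine ⟨Rp_C hmf, ?_⟩
    rw [SetLike.mem_coe, mem_fx, sig_C, gm_mo, pow_fix γ hγf]
  refine ⟨C (mo 0 f), hWS hCf, IsUnit.of_mul_eq_one (C (mo 0 f⁻¹)) (by
    rw [← map_mul, hxx, map_one]), ?_, ?_⟩
  · intro hQ'
    apply hfq
    rw [Ideal.mem_comap]
    have h1 : (⟨C (mo 0 f), hCf⟩ : WU γ p R) ∈ P0 := hQ'
    exact (hPPm _ hCf).2 h1
  · rw [← SU_lc (γ := γ) (p := p) hmf hγx hxx (hWS hCf), ← RF_lc γ p B hf hf0 hγf]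
    refine su_of_coords hcb hdec hext hlin hp hpk hγ (lc B f hf) ?_ ?_ x het T₀ ?_ hlT
    · rintro a ⟨n, hn⟩
      refine ⟨n, ?_⟩
      have h1 := hB _ hn
      rwa [map_mul, map_pow, hγf] at h1
    · intro a
      obtain ⟨b, hb, c, hc, hc0, h1⟩ := hfr a
      exact ⟨b, le_lc B f hf hb, c, le_lc B f hf hc, hc0, h1⟩
    · exact pow_eq_one_of_coords x (EI.of_coords x het).1 γ (p * p) hγ T₀ hlT

end Pool.Agent.W335.Et
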